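import Pool.Agent.helper19.FR.Spec

/-!
# Project FR (MP_bf63dc_nt), row EXC: the exceptional ratios
-/

set_option autoImplicit false

namespace Pool.Agent.FR

open Finset Real Pool.Agent.AT Pool.Agent.OM Pool.Agent.helper85.FC

theorem EXC_mean_le {α : Type} [Fintype α] (f : α → ℝ) (c : ℝ) (hc : 0 ≤ c) (h : ∀ x, f x ≤ c) : mean f ≤ c := by
  unfold mean
  apply div_le_of_le_mul₀ (Nat.cast_nonneg _) hc
  calc ∑ x, f x ≤ ∑ _x : α, c := Finset.sum_le_sum fun x _ => h x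
    _ = c * (Fintype.card α : ℝ) := by
        rw [Finset.sum_const, Finset.card_univ, nsmul_eq_mul, mul_comm]

theorem EXC_mean_nonneg {α : Type} [Fintype α] (f : α → ℝ) (h : ∀ x, 0 ≤ f x) : 0 ≤ mean f := by
  unfold mean
  exact div_nonneg (Finset.sum_nonneg fun x _ => h x) (Nat.cast_nonneg _)

theorem EXC_bad (a b M : ℕ) (y : ℤ) : 0 ≤ bad a b M y ∧ bad a b M y ≤ 1 := by
  unfold bad
  split_ifs
  · exact ⟨le_refl _, zero_le_one⟩
  · exact ⟨zero_le_one, le_refl _⟩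

theorem EXC_bdp (a b M D l : ℕ) (y : ℤ) : |bdp a b M D l y| ≤ 1 := by
  unfold bdp
  obtain ⟨h1, h2⟩ := EXC_bad a b M y
  have h3 : 0 ≤ mean fun k : Fin l => bad a b M (y + D * ((k : ℕ) : ℤ)) :=
    EXC_mean_nonneg _ fun k => (EXC_bad a b M _).1
  have h4 : mean (fun k : Fin l => bad a b M (y + D * ((k : ℕ) : ℤ))) ≤ 1 :=
    EXC_mean_le _ 1 zero_le_one fun k => (EXC_bad a b M _).2
  rw [abs_le]
  constructor <;> linarith

theorem EXC_cop (a b a' b' : ℕ) (ha : 1 ≤ a) (hc : Nat.Coprime a b) (hc' : Nat.Coprime a' b')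
    (h : (a : ℤ) * b' - a' * b = 0) : a = a' ∧ b = b' := by
  have h1 : a * b' = a' * b := by
    have h2 : (a : ℤ) * b' = a' * b := by linarith
    exact_mod_cast h2
  have h3 : a ∣ a' := by
    have h4 : a ∣ a' * b := ⟨b', h1.symm⟩
    exact hc.dvd_of_dvd_mul_right h4
  have h5 : a' ∣ a := by
    have h6 : a' ∣ a * b' := ⟨b, h1⟩
    exact hc'.dvd_of_dvd_mul_right h6
  have h7 : a = a' := Nat.dvd_antisymm h3 h5
  refine ⟨h7, ?_⟩
  subst h7
  exact (Nat.eq_of_mul_eq_mul_left ha h1).symm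

theorem EXC_dvd (a b a' b' m : ℕ) (ha : a ≤ m) (hb : b ≤ m) (ha' : a' ≤ m) (hb' : b' ≤ m)
    (h0 : (a : ℤ) * b' - a' * b ≠ 0) : ((a : ℤ) * b' - a' * b) ∣ (((m ^ 2).factorial : ℕ) : ℤ) := by
  have h1 : a * b' ≤ m ^ 2 := by
    rw [sq]
    exact Nat.mul_le_mul ha hb'
  have h2 : a' * b ≤ m ^ 2 := by
    rw [sq]
    exact Nat.mul_le_mul ha' hb
  have h3 : ((a : ℤ) * b' - a' * b).natAbs ≤ m ^ 2 := by
    have h4 : (a : ℤ) * b' = ((a * b' : ℕ) : ℤ) := by push_cast; ring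
    have h5 : (a' : ℤ) * b = ((a' * b : ℕ) : ℤ) := by push_cast; ring
    rw [h4, h5]
    omega
  rw [← Int.natAbs_dvd_natAbs, Int.natAbs_natCast]
  exact Nat.dvd_factorial (Int.natAbs_pos.2 h0) h3

theorem EXC_prod {X : ℕ} (f g : Fin X → ℝ) : mean (fun z : Fin X × Fin X => f z.1 * g z.2) = mean f * mean g := by
  unfold mean
  rw [Fintype.sum_prod_type, Fintype.card_prod, Fintype.card_fin, Nat.cast_mul, div_mul_div_comm]
  congr 1
  rw [Finset.sum_mul_sum]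

theorem EXC (hORT : ORT_stmt) (hBES : BES_stmt) : EXC_stmt := by
  classical
  intro m M l X n θ R e hθ hl hX hR hXR he
  have hX0 : (0 : ℝ) < X := by exact_mod_cast hX
  have hne : Nonempty (Fin X × Fin X) := ⟨(⟨0, hX⟩, ⟨0, hX⟩)⟩
  let Bv : ℕ × ℕ → Fin X × Fin X → ℝ := fun r z => Bk r.1 r.2 M (m ^ 2).factorial l X z.1 z.2
  have hBv : ∀ r z, |Bv r z| ≤ 1 := fun r z => EXC_bdp _ _ _ _ _ _
  obtain ⟨δ, hδ⟩ : ∃ δ : ℝ, δ = 4 * l * ((m ^ 2).factorial : ℝ) * m / X := ⟨_, rfl⟩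
  have hδ0 : 0 ≤ δ := by rw [hδ]; positivity
  have hδR : δ * #R ≤ 1 := by
    rw [hδ, div_mul_eq_mul_div, div_le_one hX0]
    exact hXR
  have horth : ∀ r ∈ R, ∀ r' ∈ R, r ≠ r' → |mean (fun z => Bv r z * Bv r' z)| ≤ δ := by
    intro r hr r' hr' hrr
    obtain ⟨h1, h2, h3, h4, h5⟩ := hR r hr
    obtain ⟨h1', h2', h3', h4', h5'⟩ := hR r' hr'
    have h0 : (r.1 : ℤ) * r'.2 - r'.1 * r.2 ≠ 0 := by
      intro h
      obtain ⟨h6, h7⟩ := EXC_cop _ _ _ _ h1 h5 h5' h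
      exact hrr (Prod.ext h6 h7)
    have h8 := hORT r.1 r.2 r'.1 r'.2 m (m ^ 2).factorial l X (bad r.1 r.2 M)
      (bdp r'.1 r'.2 M (m ^ 2).factorial l) h2 h4 h2' h4' hl hX (Nat.factorial_pos _) h0
      (EXC_dvd _ _ _ _ m h2 h4 h2' h4' h0)
      (fun y => by
        obtain ⟨q1, q2⟩ := EXC_bad r.1 r.2 M y
        rw [abs_le]
        constructor <;> linarith)
      (fun y => EXC_bdp _ _ _ _ _ _)
    rw [hδ]
    exact h8
  have hsq : ∀ r ∈ R, mean (fun z => Bv r z ^ 2) ≤ 1 := by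
    intro r _
    apply EXC_mean_le _ 1 zero_le_one
    intro z
    rw [← sq_abs]
    exact pow_le_one₀ (abs_nonneg _) (hBv r z)
  have hbes : ∀ i l' : Fin n, ∑ r ∈ R, mean (fun z : Fin X × Fin X => e i z.1 * e l' z.2 * Bv r z) ^ 2 ≤ 2 := by
    intro i l'
    apply hBES (Fin X × Fin X) (ℕ × ℕ) R Bv (fun z => e i z.1 * e l' z.2) δ hδ0 hδR _ hsq horth
    have h1 : (fun z : Fin X × Fin X => (e i z.1 * e l' z.2) ^ 2) =
        fun z : Fin X × Fin X => (fun x => e i x * e i x) z.1 * (fun x => e l' x * e l' x) z.2 := by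
      funext z
      ring
    have h2 := EXC_prod (fun x => e i x * e i x) (fun x => e l' x * e l' x)
    rw [h1]
    refine le_of_eq (h2.trans ?_)
    rw [he i i, he l' l']
    simp
  let β : ℕ × ℕ → Fin n → Fin n → ℝ := fun r i l' => mean (fun z : Fin X × Fin X => e i z.1 * e l' z.2 * Bv r z)
  let S : ℕ × ℕ → ℝ := fun r => ∑ i, ∑ l', β r i l' ^ 2
  have hS0 : ∀ r, 0 ≤ S r := fun r => Finset.sum_nonneg fun i _ => Finset.sum_nonneg fun l' _ => sq_nonneg _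
  have hSsum : ∑ r ∈ R, S r ≤ 2 * n ^ 2 := by
    calc ∑ r ∈ R, S r = ∑ i, ∑ l', ∑ r ∈ R, β r i l' ^ 2 := by
          rw [Finset.sum_comm]
          apply Finset.sum_congr rfl
          intro i _
          rw [Finset.sum_comm]
      _ ≤ ∑ _i : Fin n, ∑ _l' : Fin n, (2 : ℝ) :=
          Finset.sum_le_sum fun i _ => Finset.sum_le_sum fun l' _ => hbes i l'
      _ = 2 * n ^ 2 := by
          simp only [Finset.sum_const, Finset.card_univ, Fintype.card_fin, nsmul_eq_mul]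
          ring
  refine ⟨R.filter fun r => θ ^ 2 < S r, Finset.filter_subset _ _, ?_, ?_⟩
  · rw [le_div_iff₀ (by positivity)]
    calc (#(R.filter fun r => θ ^ 2 < S r) : ℝ) * θ ^ 2 = ∑ _r ∈ R.filter fun r => θ ^ 2 < S r, θ ^ 2 := by
          rw [Finset.sum_const, nsmul_eq_mul]
      _ ≤ ∑ r ∈ R.filter fun r => θ ^ 2 < S r, S r :=
          Finset.sum_le_sum fun r hr => (Finset.mem_filter.1 hr).2.le
      _ ≤ ∑ r ∈ R, S r :=
          Finset.sum_le_sum_of_subset_of_nonneg (Finset.filter_subset _ _) fun r _ _ => hS0 r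
      _ ≤ 2 * n ^ 2 := hSsum
  · intro r hr hrE
    have hSr : S r ≤ θ ^ 2 := by
      by_contra h
      exact hrE (Finset.mem_filter.2 ⟨hr, not_le.1 h⟩)
    have h1 : (∑ i, ∑ l', |β r i l'|) ^ 2 ≤ (n * θ) ^ 2 := by
      have h2 := sq_sum_le_card_mul_sum_sq (s := (Finset.univ : Finset (Fin n × Fin n)))
        (f := fun q => |β r q.1 q.2|)
      rw [Fintype.sum_prod_type, Fintype.sum_prod_type, Finset.card_univ, Fintype.card_prod, Fintype.card_fin] at h2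
      simp only [sq_abs] at h2
      calc (∑ i, ∑ l', |β r i l'|) ^ 2 ≤ ((n * n : ℕ) : ℝ) * S r := h2
        _ ≤ ((n * n : ℕ) : ℝ) * θ ^ 2 := mul_le_mul_of_nonneg_left hSr (Nat.cast_nonneg _)
        _ = (n * θ) ^ 2 := by push_cast; ring
    have h3 : 0 ≤ (n : ℝ) * θ := by positivity
    exact (pow_le_pow_iff_left₀ (Finset.sum_nonneg fun i _ => Finset.sum_nonneg fun l' _ => abs_nonneg _) h3
      two_ne_zero).1 h1

end Pool.Agent.FR
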