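import Pool.Agent.helper95.FR.Spec

set_option autoImplicit false

namespace Pool.Agent.helper95.FR

open scoped commutatorElement

universe u

theorem DU_NC_le {G : Type u} [Group G] (N N' : Subgroup G) (hN : N.Normal) (x : G) (hx : x ∈ N) :
    NC N' x ≤ N := by
  unfold NC
  rw [Subgroup.closure_le]
  rintro _ ⟨g, _, rfl⟩
  exact hN.conj_mem x hx g

theorem DU_WW_mem {G : Type u} [Group G] (N : Subgroup G) (x u : G) (hx : x ∈ N) (h : WW N x u) : u ∈ N := by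
  obtain ⟨h, hh, k, hk, rfl⟩ := h
  exact N.mul_mem (N.mul_mem (N.mul_mem hh hx) (N.inv_mem hh))
    (N.mul_mem (N.mul_mem hk (N.inv_mem hx)) (N.inv_mem hk))

theorem DU_WW_top {G : Type u} [Group G] (N : Subgroup G) (x u : G) (h : WW N x u) : WW (⊤ : Subgroup G) x u := by
  obtain ⟨h, _, k, _, rfl⟩ := h
  exact ⟨h, Subgroup.mem_top h, k, Subgroup.mem_top k, rfl⟩

theorem DU_key (hBAS : BAS_stmt.{u}) (hKSL : KSL_stmt.{u}) {G : Type u} [Group G] (D : Set (Subgroup G))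
    (hD : ∀ N ∈ D, N.Normal ∧ KS N) (hdir : ∀ N ∈ D, ∀ N' ∈ D, ∃ N'' ∈ D, N ≤ N'' ∧ N' ≤ N'')
    (hcov : ∀ g : G, ∃ N ∈ D, g ∈ N) (N : Subgroup G) (hN : N ∈ D) (x v : G) (hx : x ∈ N)
    (h : PP N x v) : PP (⊤ : Subgroup G) x v := by
  intro g _
  obtain ⟨N0, hN0, hg0⟩ := hcov g
  obtain ⟨N', hN', h1, h2⟩ := hdir N hN N0 hN0
  have hxN' : x ∈ N' := h1 hx
  obtain ⟨s, hs, hs2⟩ := (hKSL G N' (hD N' hN').2 x hxN').2.1 g (h2 hg0)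
  have hx2 : x ∈ NC N' x := (hBAS G N' x).1
  rw [hs2 x hx2]
  exact h s (DU_NC_le N N' (hD N hN).1 x hx hs)

theorem DU (hBAS : BAS_stmt.{u}) (hKSL : KSL_stmt.{u}) : DU_stmt.{u} := by
  intro G _ D hD hdir hcov
  have hkey := DU_key hBAS hKSL D hD hdir hcov
  refine ⟨?_, ?_, ?_⟩
  · intro x _ y _
    obtain ⟨N1, hN1, hx⟩ := hcov x
    obtain ⟨N2, hN2, hy⟩ := hcov y
    obtain ⟨N, hN, h1, h2⟩ := hdir N1 hN1 N2 hN2
    obtain ⟨u, hu, hp⟩ := (hD N hN).2.A1 x (h1 hx) y (h2 hy)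
    exact ⟨u, DU_WW_top N x u hu, hkey N hN x (u⁻¹ * y) (h1 hx) hp⟩
  · intro x _
    obtain ⟨N, hN, hx⟩ := hcov x
    obtain ⟨g, hg, hw⟩ := (hD N hN).2.A2 x hx
    exact ⟨g, Subgroup.mem_top g, DU_WW_top N _ _ hw⟩
  · intro x _ a _ b _ hax hbx
    obtain ⟨N1, hN1, hx⟩ := hcov x
    obtain ⟨N2, hN2, ha⟩ := hcov a
    obtain ⟨N3, hN3, hb⟩ := hcov b
    obtain ⟨N4, hN4, h1, h2⟩ := hdir N1 hN1 N2 hN2
    obtain ⟨N, hN, h3, h4⟩ := hdir N4 hN4 N3 hN3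
    have h5 := (hD N hN).2.A3 x (h3 (h1 hx)) a (h3 (h2 ha)) b (h4 hb) hax hbx
    exact hkey N hN x ⁅a, b⁆ (h3 (h1 hx)) h5

end Pool.Agent.helper95.FR
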